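import Pool.Agent.H962Z.Par.Main

/-!
# In one space dimension `p_-(ℋ)` can be larger than `1`

Negative answer to Q1. The coefficient is `a(x, t) = A(x² / t)` for an explicit rational function
`A`; the equation `∂_t v = ∂_x (a ∂_x v)` has the forward self-similar solution
`v = t^{-9/20} P(x²/t) exp(-(2 + i) x²/t)`, and `u_ε = e^{-t} χ(t/ε - 1) v` solves
`(1 + ℋ) u_ε = f_ε` with `‖f_ε‖_p → 0` for `p < 30/29` while `‖u_ε‖_p` stays bounded below.
-/

namespace Pool.Agent.Results.MP_b4eea7_an.ACounterexample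

open Pool.Agent.H962Z.Par

theorem result : ∃ (a : Plane → ℂ) (M ν : ℝ), Measurable a ∧ 0 < M ∧ 0 < ν ∧
    (∀ z, ‖a z‖ ≤ M) ∧ (∀ z, ν ≤ (a z).re) ∧
    (∀ p : ℝ, 1 ≤ p → p < 30 / 29 → ¬ LpBounded a p) ∧ 30 / 29 ≤ pMinus a :=
  main

end Pool.Agent.Results.MP_b4eea7_an.ACounterexample
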